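import Pool.Agent.Helper17.CR.Stmts

/-!
cr_mods DVD: a divisibility, prime by prime.
-/

set_option autoImplicit false

namespace Pool.Agent.Helper17.CR

theorem st_DVD : ST_DVD := by
  intro lam r k s p N a α hlam hr hN ha hs hp hk hα hpar h1 h2
  obtain ⟨x, hx⟩ : ∃ x : ℕ, (x : ℤ) = k + α := by
    have h3 : 0 ≤ (k : ℤ) + α := by
      rcases hα with h | h <;> rw [h, hk] <;> nlinarith
    exact ⟨((k : ℤ) + α).toNat, Int.toNat_of_nonneg h3⟩
  have hprod : (x : ℤ) ∣ (((lam * r) * N : ℕ) : ℤ) := by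
    have h3 : (((lam * r) * N : ℕ) : ℤ) = (k - s) * (k + s) := by
      rw [← hpar]
      push_cast
      ring
    rw [h3, hx]
    rcases hα with h | h
    · rw [h]
      exact Dvd.intro_left _ rfl
    · rw [h, ← sub_eq_add_neg]
      exact Dvd.intro _ rfl
  have hprod' : x ∣ (lam * r) * N := Int.natCast_dvd_natCast.1 hprod
  rw [← hx]
  apply Int.natCast_dvd_natCast.2
  rw [Nat.dvd_iff_prime_pow_dvd_dvd]
  intro l j hl hj
  by_cases hlp : l = p
  · have h3 : ((p : ℤ) ^ j) ∣ (k : ℤ) + α := by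
      rw [← hx, ← hlp]
      exact_mod_cast hj
    have h4 := h1 j h3
    rw [hlp]
    exact (h4.mul_right _).mul_right _
  · rcases Nat.eq_zero_or_pos j with h0 | h0
    · rw [h0, pow_zero]
      exact one_dvd _
    · have h3 : (l : ℤ) ∣ (k : ℤ) + α := by
        rw [← hx]
        exact Int.natCast_dvd_natCast.2 ((dvd_pow_self l h0.ne').trans hj)
      obtain ⟨a1, a2, b1, b2, b3⟩ := exists_dvd_and_dvd_of_dvd_mul (hj.trans hprod')
      have h4 : a2 ∣ l ^ j := by rw [b3]; exact Dvd.intro_left _ rfl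
      obtain ⟨i, _, hi⟩ := (Nat.dvd_prime_pow hl).1 h4
      have h5 : a2 ∣ a := by
        rw [hi] at b2 ⊢
        exact h2 l i hl hlp h3 b2
      rw [b3]
      exact (mul_dvd_mul (b1.trans (Dvd.intro_left _ rfl)) h5)

end Pool.Agent.Helper17.CR
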