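import Pool.Agent.Helper17.CR.Stmts2

/-!
cr_mods WDIV: a Wronskian divisible by a high power of `X - x`.
-/

set_option autoImplicit false

namespace Pool.Agent.Helper17.CR

open Finset Polynomial

theorem wdiv_mul (x : ℤ) (k : ℕ) (p : Polynomial ℤ) :
    hasseDeriv (k + 1) ((X - C x) * p) = (X - C x) * hasseDeriv (k + 1) p + hasseDeriv k p := by
  rw [hasseDeriv_mul]
  rw [Finset.Nat.sum_antidiagonal_eq_sum_range_succ (f := fun a b => hasseDeriv a (X - C x) * hasseDeriv b p)]
  rw [Finset.sum_range_succ', Finset.sum_range_succ']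
  have h : ∀ i ∈ range k, hasseDeriv (i + 1 + 1) (X - C x) * hasseDeriv (k + 1 - (i + 1 + 1)) p = 0 := by
    intro i _
    rw [map_sub, hasseDeriv_X _ (by omega), hasseDeriv_C _ _ (by omega), sub_zero, zero_mul]
  rw [sum_eq_zero h]
  simp
  ring

theorem wdiv_dvd (x : ℤ) (m : ℕ) : ∀ (k : ℕ) (p : Polynomial ℤ), (X - C x) ^ m ∣ p →
    (X - C x) ^ (m - k) ∣ hasseDeriv k p := by
  induction m with
  | zero => intro k p _; simp
  | succ m ih =>
    intro k p hp
    obtain ⟨q, rfl⟩ := hp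
    have e : (X - C x) ^ (m + 1) * q = (X - C x) * ((X - C x) ^ m * q) := by ring
    rw [e]
    rcases k with _ | k
    · rw [hasseDeriv_zero', Nat.sub_zero]
      exact ⟨q, e.symm⟩
    · rw [wdiv_mul]
      have h1 := ih (k + 1) ((X - C x) ^ m * q) (dvd_mul_right _ _)
      have h2 := ih k ((X - C x) ^ m * q) (dvd_mul_right _ _)
      have h3 : m + 1 - (k + 1) = m - k := by omega
      rw [h3]
      refine dvd_add ?_ h2
      have h4 : (X - C x) ^ (m - k) ∣ (X - C x) * (X - C x) ^ (m - (k + 1)) := by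
        rw [← pow_succ']
        exact pow_dvd_pow _ (by omega)
      exact h4.trans (mul_dvd_mul_left _ h1)

/-- cancellation of a constant -/
theorem wdiv_cancel (d W : Polynomial ℤ) (hd : d.Monic) (a : ℤ) (ha : a ≠ 0) (h : d ∣ C a * W) :
    d ∣ W := by
  rw [← modByMonic_eq_zero_iff_dvd hd] at h ⊢
  rw [← smul_eq_C_mul, smul_modByMonic] at h
  exact (smul_eq_zero.1 h).resolve_left ha

/-- a column of multiples of `d` -/
theorem wdiv_col {n : ℕ} (A : Matrix (Fin n) (Fin n) (Polynomial ℤ)) (j : Fin n)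
    (v : Fin n → Polynomial ℤ) (d : Polynomial ℤ) (h : ∀ i, d ∣ v i) :
    d ∣ (A.updateCol j v).det := by
  choose w hw using h
  have e : v = d • w := by
    funext i
    rw [hw i]
    rfl
  rw [e, Matrix.det_updateCol_smul]
  exact dvd_mul_right _ _

theorem st_WDIV (h1 : ST_WRO) : ST_WDIV := by
  intro P c x m hne hdvd
  set p : Polynomial ℤ := ∑ j, C (c j) * P j with hp
  -- a minimal set of indices
  have hex : ∃ N : ℕ, ∃ B : Finset (Fin 3), B.card = N ∧ ∃ (c0 : ℤ) (mu : Fin 3 → ℤ), c0 ≠ 0 ∧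
      C c0 * p = ∑ j ∈ B, C (mu j) * P j :=
    ⟨3, univ, by simp, 1, c, one_ne_zero, by rw [C_1, one_mul, hp]⟩
  classical
  obtain ⟨B, hB, c0, mu, hc0, hmu⟩ := Nat.find_spec hex
  have hmin := fun N (hN : N < Nat.find hex) => Nat.find_min hex hN
  have hindep : ∀ nu : Fin 3 → ℤ, ∑ j ∈ B, C (nu j) * P j = 0 → ∀ k ∈ B, nu k = 0 := by
    intro nu hnu k hk
    by_contra hk0
    refine hmin (B.erase k).card (by rw [← hB]; exact card_erase_lt_of_mem hk)
      ⟨B.erase k, rfl, nu k * c0, fun j => nu k * mu j - mu k * nu j, mul_ne_zero hk0 hc0, ?_⟩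
    have e1 : C (nu k * c0) * p = ∑ j ∈ B, C (nu k * mu j - mu k * nu j) * P j := by
      have e2 : ∑ j ∈ B, C (nu k * mu j - mu k * nu j) * P j =
          C (nu k) * ∑ j ∈ B, C (mu j) * P j - C (mu k) * ∑ j ∈ B, C (nu j) * P j := by
        rw [mul_sum, mul_sum, ← sum_sub_distrib]
        refine sum_congr rfl fun j _ => ?_
        rw [C_sub, C_mul, C_mul]
        ring
      rw [e2, hnu, ← hmu, C_mul]
      ring
    rw [e1, ← Finset.add_sum_erase B _ hk]
    have e3 : nu k * mu k - mu k * nu k = 0 := by ring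
    rw [e3, C_0, zero_mul, zero_add]
  have hj0 : ∃ j0 ∈ B, mu j0 ≠ 0 := by
    by_contra hcon
    push Not at hcon
    have h2 : C c0 * p = 0 := by
      rw [hmu]
      refine sum_eq_zero fun j hj => ?_
      rw [hcon j hj, C_0, zero_mul]
    rcases mul_eq_zero.1 h2 with h3 | h3
    · exact hc0 (C_eq_zero.1 h3)
    · exact hne h3
  obtain ⟨j0, hj0B, hj0⟩ := hj0
  have hB3 : B.card ≤ 3 := by
    have := card_le_univ B
    simpa using this
  obtain ⟨n, hn⟩ : ∃ n, B.card = n := ⟨_, rfl⟩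
  let f : Fin n → Fin 3 := fun i => B.orderEmbOfFin hn i
  have hfB : ∀ i, f i ∈ B := fun i => B.orderEmbOfFin_mem hn i
  have hfinj : Function.Injective f := (B.orderEmbOfFin hn).injective
  have hsum : ∀ F : Fin 3 → Polynomial ℤ, ∑ j ∈ B, F j = ∑ i : Fin n, F (f i) := by
    intro F
    have himg : (univ : Finset (Fin n)).image f = B := by
      apply Finset.eq_of_subset_of_card_le
      · intro y hy
        obtain ⟨i, _, rfl⟩ := Finset.mem_image.1 hy
        exact hfB i
      · rw [card_image_of_injective _ hfinj, card_univ, Fintype.card_fin, hn]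
    rw [← himg, sum_image (fun a _ b _ hab => hfinj hab)]
  obtain ⟨i0, hi0⟩ : ∃ i0, f i0 = j0 := by
    have himg : (univ : Finset (Fin n)).image f = B := by
      apply Finset.eq_of_subset_of_card_le
      · intro y hy
        obtain ⟨i, _, rfl⟩ := Finset.mem_image.1 hy
        exact hfB i
      · rw [card_image_of_injective _ hfinj, card_univ, Fintype.card_fin, hn]
    rw [← himg] at hj0B
    obtain ⟨i, _, hi⟩ := Finset.mem_image.1 hj0B
    exact ⟨i, hi⟩
  have hlin : LinearIndependent ℤ (fun i : Fin n => P (f i)) := by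
    rw [Fintype.linearIndependent_iff]
    intro g hg
    have h2 : ∑ j ∈ B, C ((fun j => if hj : ∃ i, f i = j then g hj.choose else 0) j) * P j = 0 := by
      rw [hsum, ← hg]
      refine sum_congr rfl fun i _ => ?_
      have h3 : ∃ i', f i' = f i := ⟨i, rfl⟩
      dsimp only
      rw [dif_pos h3, hfinj h3.choose_spec, smul_eq_C_mul]
    intro i
    have h4 := hindep _ h2 (f i) (hfB i)
    have h3 : ∃ i', f i' = f i := ⟨i, rfl⟩
    rw [dif_pos h3, hfinj h3.choose_spec] at h4
    exact h4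
  refine ⟨n, f, by omega, h1 n (fun i => P (f i)) hlin, ?_⟩
  set A : Matrix (Fin n) (Fin n) (Polynomial ℤ) :=
    Matrix.of fun i j : Fin n => Polynomial.hasseDeriv (i : ℕ) (P (f j)) with hA
  have hmonic : ((X - C x) ^ (m - 2)).Monic := (monic_X_sub_C x).pow _
  apply wdiv_cancel _ _ hmonic (mu j0) hj0
  have hdet := Matrix.det_updateCol_sum A i0 (fun i => C (mu (f i)))
  rw [hi0, smul_eq_mul] at hdet
  rw [← hdet]
  apply wdiv_col
  intro i
  have e5 : ∑ j, C (mu (f j)) • A i j = hasseDeriv (i : ℕ) (C c0 * p) := by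
    rw [hmu, hsum, map_sum]
    refine sum_congr rfl fun j _ => ?_
    rw [hA, Matrix.of_apply, ← smul_eq_C_mul, map_smul, smul_eq_C_mul, smul_eq_mul]
  rw [e5, ← smul_eq_C_mul, map_smul]
  have h6 : (X - C x) ^ (m - (i : ℕ)) ∣ hasseDeriv (i : ℕ) p := wdiv_dvd x m i p hdvd
  have h7 : (X - C x) ^ (m - 2) ∣ (X - C x) ^ (m - (i : ℕ)) := pow_dvd_pow _ (by
    have := i.2
    omega)
  rw [smul_eq_C_mul]
  exact (h7.trans h6).mul_left _

end Pool.Agent.Helper17.CR
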